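import Mathlib
import Pool.Agent.H552R3.SymGrp

/-! Index of a Brauer class and representatives of given degree. -/

set_option autoImplicit false
set_option linter.all false

open scoped TensorProduct

noncomputable section

namespace Pool.Agent.H552R3.SymBr

open Pool.Agent.Helper346.Bra Pool.Agent.Helper18.Br

universe u

variable {K : Type u} [Field K]

/-- sizes of matrix rings over division rings -/
theorem size_le {D D' : Type*} [DivisionRing D] [DivisionRing D'] {p s : ℕ}
    (φ : Matrix (Fin s) (Fin s) D' ≃+* Matrix (Fin p) (Fin p) D) : s ≤ p := by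
  classical
  let e : Fin s → Matrix (Fin p) (Fin p) D := fun i => φ (Matrix.single i i 1)
  have he0 : ∀ i, e i ≠ 0 := by
    intro i h
    have h1 : (Matrix.single i i (1 : D') : Matrix (Fin s) (Fin s) D') = 0 := by
      apply φ.injective
      rw [map_zero]
      exact h
    have h2 := congrFun (congrFun h1 i) i
    simp at h2
  have hmul : ∀ i j, i ≠ j → e i * e j = 0 := by
    intro i j hij
    simp only [e]
    rw [← map_mul, Matrix.single_mul_single_of_ne _ _ _ _ hij, map_zero]
  have hidem : ∀ i, e i * e i = e i := by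
    intro i
    simp only [e]
    rw [← map_mul, Matrix.single_mul_single_same, mul_one]
  have hw : ∀ i, ∃ w : Fin p → D, Matrix.vecMul w (e i) ≠ 0 := by
    intro i
    by_contra hcon
    push Not at hcon
    apply he0 i
    ext a b
    have h := congrFun (hcon (Pi.single a 1)) b
    rw [Matrix.single_one_vecMul] at h
    exact h
  choose w hw using hw
  have hli : LinearIndependent D (fun i => Matrix.vecMul (w i) (e i)) := by
    rw [Fintype.linearIndependent_iff]
    intro c hc j
    have h1 : Matrix.vecMul (∑ i, c i • Matrix.vecMul (w i) (e i)) (e j) = 0 := by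
      rw [hc, Matrix.zero_vecMul]
    rw [Matrix.sum_vecMul, Finset.sum_eq_single j] at h1
    · rw [Matrix.smul_vecMul, Matrix.vecMul_vecMul, hidem] at h1
      exact (smul_eq_zero.1 h1).resolve_right (hw j)
    · intro i _ hij
      rw [Matrix.smul_vecMul, Matrix.vecMul_vecMul, hmul i j hij, Matrix.vecMul_zero, smul_zero]
    · intro h
      exact absurd (Finset.mem_univ j) h
  have := hli.fintype_card_le_finrank
  rwa [Fintype.card_fin, Module.finrank_fin_fun] at this

theorem size_eq {D D' : Type*} [DivisionRing D] [DivisionRing D'] {p s : ℕ}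
    (φ : Matrix (Fin s) (Fin s) D' ≃+* Matrix (Fin p) (Fin p) D) : s = p :=
  le_antisymm (size_le φ) (size_le φ.symm)

/-- the dimension of a central simple algebra is a square -/
theorem finrank_square (A : Type u) [Ring A] [Algebra K A] [Algebra.IsCentral K A] [IsSimpleRing A]
    [FiniteDimensional K A] : ∃ m : ℕ, Module.finrank K A = m ^ 2 := by
  let L := AlgebraicClosure K
  haveI : IsSimpleRing (A ⊗[K] L) := isSimple_tensor
  haveI : IsSimpleRing (L ⊗[K] A) :=
    IsSimpleRing.of_ringEquiv (Algebra.TensorProduct.comm K A L).toRingEquiv inferInstance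
  obtain ⟨m, _, ⟨e⟩⟩ := IsSimpleRing.exists_algEquiv_matrix_of_isAlgClosed L (L ⊗[K] A)
  refine ⟨m, ?_⟩
  rw [← Module.finrank_baseChange (R := L) (S := K) (M' := A), e.toLinearEquiv.finrank_eq, Module.finrank_matrix]
  simp [sq]

/-- every class contains a division algebra -/
theorem exists_div (α : BrauerGroup.{u, u} K) :
    ∃ (D : Type u) (_ : DivisionRing D) (_ : Algebra K D) (_ : Algebra.IsCentral K D)
      (_ : FiniteDimensional K D), brauerClass K D = α := by
  obtain ⟨A, rfl⟩ := Quotient.exists_rep α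
  haveI := IsArtinianRing.of_finite K A
  obtain ⟨t, ht, D, _, _, _, ⟨e⟩⟩ := IsSimpleRing.exists_algEquiv_matrix_divisionRing_finite K A
  haveI : Algebra.IsCentral K (Matrix (Fin t) (Fin t) D) := Algebra.IsCentral.of_algEquiv K _ _ e
  have hc : Algebra.IsCentral K D := by
    constructor
    intro d hd
    rw [Subalgebra.mem_center_iff] at hd
    have h1 : Matrix.scalar (Fin t) d ∈ Subalgebra.center K (Matrix (Fin t) (Fin t) D) := by
      rw [Subalgebra.mem_center_iff]
      intro M
      ext i j
      rw [Matrix.scalar_apply, Matrix.mul_diagonal, Matrix.diagonal_mul, hd]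
    have h2 := Algebra.IsCentral.out h1
    obtain ⟨c, hc⟩ := Algebra.mem_bot.1 h2
    have h3 := congrFun (congrFun hc ⟨0, Nat.pos_of_ne_zero ht.out⟩) ⟨0, Nat.pos_of_ne_zero ht.out⟩
    rw [Matrix.scalar_apply, Matrix.diagonal_apply_eq, Matrix.algebraMap_matrix_apply, if_pos rfl] at h3
    exact Algebra.mem_bot.2 ⟨c, h3⟩
  exact ⟨D, inferInstance, inferInstance, hc, inferInstance,
    (brauerClass_eq_iff (A := A) (B := D)).2 (BrEq.of_matrix ht.out e) |>.symm⟩

theorem HasRep.indDvd {α : BrauerGroup.{u, u} K} {N : ℕ} (h : HasRep α N) : IndDvd α N := by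
  intro D _ _ _ _ hD
  obtain ⟨A, _, _, _, _, _, hA, hN⟩ := h
  haveI := IsArtinianRing.of_finite K A
  obtain ⟨t, ht, D', _, _, _, ⟨e⟩⟩ := IsSimpleRing.exists_algEquiv_matrix_divisionRing_finite K A
  have h1 : BrEq K A D := brauerClass_eq_iff.1 (hA.trans hD.symm)
  obtain ⟨p, q, hp, hq, ⟨f⟩⟩ := h1
  have g : Matrix (Fin (p * t)) (Fin (p * t)) D' ≃ₐ[K] Matrix (Fin q) (Fin q) D :=
    (Matrix.reindexAlgEquiv K _ finProdFinEquiv).symm.trans
      ((Matrix.compAlgEquiv _ _ _ _).symm.trans (e.symm.mapMatrix.trans f))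
  have hs := size_eq g.toRingEquiv
  have hd : Module.finrank K D' = Module.finrank K D := by
    have h2 := g.toLinearEquiv.finrank_eq
    rw [Module.finrank_matrix, Module.finrank_matrix, hs, Fintype.card_fin] at h2
    exact Nat.eq_of_mul_eq_mul_left (Nat.mul_pos (Nat.pos_of_ne_zero hq) (Nat.pos_of_ne_zero hq)) h2
  obtain ⟨m, hm⟩ := finrank_square (K := K) D
  have h3 := e.toLinearEquiv.finrank_eq
  rw [Module.finrank_matrix, hN, hd, hm, Fintype.card_fin] at h3
  rw [hm, Nat.sqrt_eq']
  have h4 : N ^ 2 = (t * m) ^ 2 := by rw [h3]; ring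
  have h5 : N = t * m := Nat.pow_left_injective (n := 2) (by norm_num) h4
  exact ⟨t, by rw [h5, mul_comm]⟩

theorem IndDvd.hasRep {α : BrauerGroup.{u, u} K} {N : ℕ} (hN : 0 < N) (h : IndDvd α N) : HasRep α N := by
  obtain ⟨D, _, _, _, _, hD⟩ := exists_div α
  obtain ⟨m, hm⟩ := finrank_square (K := K) D
  have h1 := h D hD
  rw [hm, Nat.sqrt_eq'] at h1
  obtain ⟨t, rfl⟩ := h1
  have ht : 0 < t := Nat.pos_of_ne_zero (by rintro rfl; simp at hN)
  haveI : Nonempty (Fin t) := ⟨⟨0, ht⟩⟩
  refine ⟨Matrix (Fin t) (Fin t) D, inferInstance, inferInstance, inferInstance, inferInstance, inferInstance, ?_, ?_⟩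
  · rw [← hD]
    exact brauerClass_eq_iff.2 (BrEq.of_matrix ht.ne' AlgEquiv.refl)
  · rw [Module.finrank_matrix, hm, Fintype.card_fin]
    ring

end Pool.Agent.H552R3.SymBr
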