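import Mathlib
import Pool.Agent.Helper346.Bra.SC
import Pool.Agent.H552R3.SymMain

/-! Restriction of Brauer classes to a field extension. -/

set_option autoImplicit false
set_option linter.all false

open scoped TensorProduct

noncomputable section

namespace Pool.Agent.H552R3.SymBr

open Pool.Agent.Helper346.Bra Pool.Agent.Helper18.Br

universe u

variable (F K : Type u) [Field F] [Field K] [Algebra F K]

theorem isSimple_base (A : Type u) [Ring A] [Algebra F A] [Algebra.IsCentral F A] [IsSimpleRing A] :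
    IsSimpleRing (K ⊗[F] A) := by
  haveI : IsSimpleRing (A ⊗[F] K) := isSimple_tensor
  exact IsSimpleRing.of_ringEquiv (Algebra.TensorProduct.comm F A K).toRingEquiv inferInstance

theorem isCentral_base (A : Type u) [Ring A] [Nontrivial A] [Algebra F A] [Algebra.IsCentral F A] :
    Algebra.IsCentral K (K ⊗[F] A) where
  out t ht := by
    classical
    rw [Subalgebra.mem_center_iff] at ht
    have b := Module.Basis.ofVectorSpace F K
    have hc : ∀ a : A, (a ⊗ₜ[F] (1 : K)) * Algebra.TensorProduct.comm F K A t =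
        Algebra.TensorProduct.comm F K A t * (a ⊗ₜ[F] (1 : K)) := by
      intro a
      have h := congrArg (Algebra.TensorProduct.comm F K A) (ht ((1 : K) ⊗ₜ[F] a))
      rw [map_mul, map_mul, Algebra.TensorProduct.comm_tmul] at h
      exact h
    obtain ⟨m, hm⟩ := exists_one_tmul b (Algebra.TensorProduct.comm F K A t) (fun i => by
      have hc : co b (Algebra.TensorProduct.comm F K A t) i ∈ Subalgebra.center F A := by
        rw [Subalgebra.mem_center_iff]
        intro a
        rw [← co_left, ← co_right, hc]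
      rw [Algebra.IsCentral.center_eq_bot] at hc
      exact Algebra.mem_bot.1 hc)
    have h2 : t = m ⊗ₜ[F] (1 : A) := by
      have h3 := congrArg (Algebra.TensorProduct.comm F K A).symm hm
      rw [AlgEquiv.symm_apply_apply, Algebra.TensorProduct.comm_symm_tmul] at h3
      exact h3
    refine Algebra.mem_bot.2 ⟨m, ?_⟩
    rw [h2, Algebra.TensorProduct.algebraMap_apply]
    rfl

variable {F}

/-- base change of a central simple algebra -/
def csaBase (A : CSA.{u, u} F) : CSA.{u, u} K :=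
  haveI : IsSimpleRing (K ⊗[F] A) := isSimple_base F K A
  haveI : Algebra.IsCentral K (K ⊗[F] A) := isCentral_base F K A
  csaOf K (K ⊗[F] A)

theorem brEq_base {A B : Type u} [Ring A] [Ring B] [Algebra F A] [Algebra F B] (h : BrEq F A B) :
    BrEq K (K ⊗[F] A) (K ⊗[F] B) := by
  obtain ⟨n, m, hn, hm, ⟨e⟩⟩ := h
  refine ⟨1 * n, 1 * m, mul_ne_zero one_ne_zero hn, mul_ne_zero one_ne_zero hm, ⟨?_⟩⟩
  refine (Matrix.reindexAlgEquiv K _ finProdFinEquiv).symm.trans ?_
  refine (Matrix.kroneckerTMulAlgEquiv (Fin 1) (Fin n) F K K A).symm.trans ?_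
  refine (Algebra.TensorProduct.congr (AlgEquiv.refl (R := K)) e).trans ?_
  refine (Matrix.kroneckerTMulAlgEquiv (Fin 1) (Fin m) F K K B).trans ?_
  exact Matrix.reindexAlgEquiv K _ finProdFinEquiv

/-- `K ⊗ (A ⊗ B) ≃ (K ⊗ A) ⊗ (K ⊗ B)` -/
theorem base_tensor (A B : Type u) [Ring A] [Ring B] [Algebra F A] [Algebra F B]
    [Algebra.IsCentral F A] [IsSimpleRing A] [FiniteDimensional F A]
    [Algebra.IsCentral F B] [IsSimpleRing B] [FiniteDimensional F B] :
    Nonempty ((K ⊗[F] (A ⊗[F] B)) ≃ₐ[K] ((K ⊗[F] A) ⊗[K] (K ⊗[F] B))) := by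
  haveI i1 : IsSimpleRing (K ⊗[F] A) := isSimple_base F K A
  haveI i2 : IsSimpleRing (K ⊗[F] B) := isSimple_base F K B
  haveI i3 : Algebra.IsCentral K (K ⊗[F] A) := isCentral_base F K A
  haveI i4 : IsSimpleRing (A ⊗[F] B) := isSimple_tensor
  haveI i5 : Algebra.IsCentral F (A ⊗[F] B) := isCentral_tensor
  haveI i6 : IsSimpleRing (K ⊗[F] (A ⊗[F] B)) := isSimple_base F K (A ⊗[F] B)
  haveI i7 : IsSimpleRing ((K ⊗[F] A) ⊗[K] (K ⊗[F] B)) := isSimple_tensor
  let C := (K ⊗[F] A) ⊗[K] (K ⊗[F] B)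
  let fA : A →ₐ[F] C := ((Algebra.TensorProduct.includeLeft : (K ⊗[F] A) →ₐ[K] C).restrictScalars F).comp
    (Algebra.TensorProduct.includeRight : A →ₐ[F] K ⊗[F] A)
  let fB : B →ₐ[F] C := ((Algebra.TensorProduct.includeRight : (K ⊗[F] B) →ₐ[K] C).restrictScalars F).comp
    (Algebra.TensorProduct.includeRight : B →ₐ[F] K ⊗[F] B)
  let g : A ⊗[F] B →ₐ[F] C := Algebra.TensorProduct.lift fA fB (fun a b => by
    rw [Commute, SemiconjBy]
    change ((1 : K) ⊗ₜ[F] a) ⊗ₜ[K] (1 : K ⊗[F] B) * (1 : K ⊗[F] A) ⊗ₜ[K] ((1 : K) ⊗ₜ[F] b) =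
      (1 : K ⊗[F] A) ⊗ₜ[K] ((1 : K) ⊗ₜ[F] b) * ((1 : K) ⊗ₜ[F] a) ⊗ₜ[K] (1 : K ⊗[F] B)
    rw [Algebra.TensorProduct.tmul_mul_tmul, Algebra.TensorProduct.tmul_mul_tmul, one_mul, mul_one, one_mul, mul_one])
  let φ : K ⊗[F] (A ⊗[F] B) →ₐ[K] C := Algebra.TensorProduct.lift (Algebra.ofId K C) g
    (fun x y => Algebra.commutes x _)
  exact equiv_of_hom φ (by
    rw [Module.finrank_baseChange, Module.finrank_tensorProduct, Module.finrank_tensorProduct,
      Module.finrank_baseChange, Module.finrank_baseChange])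

/-- The restriction homomorphism `Br(F) → Br(K)`, `[A] ↦ [K ⊗ A]`. -/
def res : BrauerGroup.{u, u} F →* BrauerGroup.{u, u} K where
  toFun := Quotient.map (csaBase K) (fun _ _ h => brEq_base K h)
  map_one' := Quotient.sound (BrEq.of_equiv (Algebra.TensorProduct.rid F K K))
  map_mul' := by
    rintro ⟨A⟩ ⟨B⟩
    obtain ⟨e⟩ := base_tensor K (F := F) A B
    exact Quotient.sound (BrEq.of_equiv e)

end Pool.Agent.H552R3.SymBr
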