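import Mathlib
import Pool.Agent.H552R3.SymRes

/-! The relative index bound. -/

set_option autoImplicit false
set_option linter.all false

open scoped TensorProduct

noncomputable section

namespace Pool.Agent.H552R3.SymBr

open Pool.Agent.Helper346.Bra Pool.Agent.Helper18.Br

universe u

variable {F K : Type u} [Field F] [Field K] [Algebra F K] {n : ℕ} {ζ : F}

/-- The image of a unit of `F` in the extension `K`. -/
def ι (K : Type u) [Field K] [Algebra F K] : Fˣ →* Kˣ := Units.map (algebraMap F K : F →* K)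

/-- A primitive `n`-th root of unity stays primitive in the extension `K`. -/
theorem rootK (K : Type u) [Field K] [Algebra F K] (hζ : IsPrimitiveRoot ζ n) :
    IsPrimitiveRoot (algebraMap F K ζ) n :=
  hζ.map_of_injective (algebraMap F K).injective

theorem res_symCl (hn : 0 < n) (hζ : IsPrimitiveRoot ζ n) (a b : Fˣ) :
    res K (symCl hn hζ a b) = symCl hn (rootK K hζ) (ι K a) (ι K b) := by
  obtain ⟨e⟩ := symb_baseChange (R := F) (K := K) n ζ (a : F) (b : F)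
  exact Quotient.sound (BrEq.of_equiv e)

theorem IndDvd.res {β : BrauerGroup.{u, u} F} {N : ℕ} (hN : 0 < N) (h : IndDvd β N) :
    IndDvd (SymBr.res K β) N := by
  obtain ⟨A, _, _, _, _, _, hA, hd⟩ := h.hasRep hN
  haveI : IsSimpleRing (K ⊗[F] A) := isSimple_base F K A
  haveI : Algebra.IsCentral K (K ⊗[F] A) := isCentral_base F K A
  refine HasRep.indDvd ⟨K ⊗[F] A, inferInstance, inferInstance, inferInstance, inferInstance, inferInstance, ?_, ?_⟩
  · rw [← hA]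
    rfl
  · rw [Module.finrank_baseChange, hd]

/-- linear relation `c e + d f = 1` -/
theorem pairRel_of_linear {n : ℕ} {ζ : K} (hn : 0 < n) (hζ : IsPrimitiveRoot ζ n)
    (V : Subgroup (BrauerGroup.{u, u} K)) (H : Subgroup Kˣ) (hV : symSet hn hζ H ⊆ V) (e f : Kˣ)
    (c d : Kˣ) (hc : c ∈ H) (hd : d ∈ H) (h : (c : K) * e + d * f = 1) : PairRel hn hζ V H e f := by
  have h1 : symCl hn hζ (d * f) (c * e) = 1 := by
    apply symCl_steinberg
    push_cast
    linear_combination h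
  rw [symCl_mul_left, symCl_mul_right, symCl_mul_right] at h1
  -- {d,c}{d,e}{f,c}{f,e} = 1
  refine ⟨d⁻¹, H.inv_mem hd, c, hc, symCl hn hζ d c, hV ⟨d, hd, c, hc, rfl⟩, ?_⟩
  rw [symCl_inv_right, symCl_anti hn hζ e f, symCl_anti hn hζ e d, inv_inv]
  have h2 : symCl hn hζ f e = (symCl hn hζ d c * symCl hn hζ d e * symCl hn hζ f c)⁻¹ := by
    rw [← mul_assoc] at h1
    exact eq_inv_of_mul_eq_one_right h1
  rw [h2, inv_inv]
  generalize symCl hn hζ d c = p
  generalize symCl hn hζ d e = q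
  generalize symCl hn hζ f c = s
  rw [mul_comm (q * s) p, mul_assoc]

theorem final (hn : 0 < n) (hζ : IsPrimitiveRoot ζ n)
    (U : Subgroup (BrauerGroup.{u, u} F)) (H : Subgroup Fˣ) (hneg : (-1 : Fˣ) ∈ H)
    (hHU : ∀ a ∈ H, ∀ b ∈ H, symCl hn hζ a b ∈ U)
    (N : ℕ) (hN : 0 < N) (hU : ∀ β ∈ U, IndDvd β N)
    (r : ℕ) (e f : Fin r → Kˣ)
    (hef : ∀ i, (∃ a ∈ H, ∃ b ∈ H, ∃ β ∈ U, symCl hn (rootK K hζ) (e i) (f i) =
          symCl hn (rootK K hζ) (e i) (ι K a) * symCl hn (rootK K hζ) (f i) (ι K b) * res K β) ∨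
        (∃ c ∈ H, ∃ d ∈ H, algebraMap F K c * e i + algebraMap F K d * f i = 1))
    (α : BrauerGroup.{u, u} K)
    (hα : α ∈ Subgroup.closure ({γ | ∃ β ∈ U, γ = res K β} ∪
      {γ | ∃ x ∈ H.map (ι K) ⊔ Subgroup.closure (Set.range e ∪ Set.range f),
        ∃ y ∈ H.map (ι K) ⊔ Subgroup.closure (Set.range e ∪ Set.range f),
          γ = symCl hn (rootK K hζ) x y})) :
    IndDvd α (n ^ r * N) := by
  have hV : symSet hn (rootK K hζ) (H.map (ι K)) ⊆ U.map (res K) := by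
    rintro γ ⟨a, ⟨a', ha', rfl⟩, b, ⟨b', hb', rfl⟩, rfl⟩
    exact ⟨symCl hn hζ a' b', hHU a' ha' b' hb', res_symCl hn hζ a' b'⟩
  refine main_index hn (rootK K hζ) r (U.map (res K)) (H.map (ι K)) ⟨-1, hneg, ?_⟩ hV N hN ?_ e f ?_ α ?_
  · ext
    simp [ι]
  · rintro γ ⟨β, hβ, rfl⟩
    exact (hU β hβ).res hN
  · intro i
    rcases hef i with ⟨a, ha, b, hb, β, hβ, h⟩ | ⟨c, hc, d, hd, h⟩
    · exact ⟨ι K a, ⟨a, ha, rfl⟩, ι K b, ⟨b, hb, rfl⟩, res K β, ⟨β, hβ, rfl⟩, h⟩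
    · exact pairRel_of_linear hn (rootK K hζ) _ _ hV (e i) (f i) (ι K c) (ι K d) ⟨c, hc, rfl⟩ ⟨d, hd, rfl⟩ h
  · rw [Subgroup.closure_union] at hα
    have hle : Subgroup.closure {γ | ∃ β ∈ U, γ = res K β} ≤ U.map (res K) := by
      rw [Subgroup.closure_le]
      rintro γ ⟨β, hβ, rfl⟩
      exact ⟨β, hβ, rfl⟩
    exact (sup_le_sup_right hle (Subgroup.closure (symSet hn (rootK K hζ)
      (H.map (ι K) ⊔ Subgroup.closure (Set.range e ∪ Set.range f))))) hα

end Pool.Agent.H552R3.SymBr
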