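import Mathlib
import Pool.Agent.H552R3.SymMain

/-! Sums of `r` symbols. -/

set_option autoImplicit false
set_option linter.all false

open scoped TensorProduct

namespace Pool.Agent.H552R3.SymBr

open Pool.Agent.Helper18.Br

universe u

variable {K : Type u} [Field K] {n : ℕ} {ζ : K}

/-- one step: a single symbol modulo `V` -/
theorem step_len (hn : 0 < n) (hζ : IsPrimitiveRoot ζ n) (V : Subgroup (BrauerGroup.{u, u} K))
    (H : Subgroup Kˣ) (h1 : (-1 : Kˣ) ∈ H) (hV : symSet hn hζ H ⊆ V) (e f : Kˣ)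
    (hef : PairRel hn hζ V H e f) (α : BrauerGroup.{u, u} K)
    (hα : α ∈ V ⊔ Subgroup.closure (symSet hn hζ (H ⊔ Subgroup.closure {e, f}))) :
    ∃ x y : Kˣ, ∃ v ∈ V, α = symCl hn hζ x y * v := by
  obtain ⟨A, hA, B, hB, γ, hγ, rfl⟩ := step_form hn hζ V H h1 hV e f hef α hα
  obtain ⟨a, ha, b, hb, v, hv, h⟩ := hef
  have h2 : symCl hn hζ (A * a) (B * b) * v * γ ∈ V :=
    V.mul_mem (V.mul_mem (hV ⟨A * a, H.mul_mem hA ha, B * b, H.mul_mem hB hb, rfl⟩) hv) hγ
  have h3 : symCl hn hζ e A * symCl hn hζ f B * γ =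
      symCl hn hζ (e * (B * b)) ((A * a) * f⁻¹) * (symCl hn hζ (A * a) (B * b) * v * γ) := by
    have h4 := symCl_pair0 hn hζ e f (A * a) (B * b)
    rw [h, symCl_mul_right hn hζ e A a, symCl_mul_right hn hζ f B b] at h4
    rw [mul_assoc (symCl hn hζ (A * a) (B * b)), ← mul_assoc (symCl hn hζ (e * (B * b)) (A * a * f⁻¹)), h4]
    exact comm_aux _ _ _ _ _ _
  exact ⟨_, _, _, h2, h3⟩

/-- The symbol length bound for `r` pairs. -/
theorem main_len (hn : 0 < n) (hζ : IsPrimitiveRoot ζ n) (r : ℕ) :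
    ∀ (V : Subgroup (BrauerGroup.{u, u} K)) (H : Subgroup Kˣ) (h1 : (-1 : Kˣ) ∈ H)
      (hV : symSet hn hζ H ⊆ V)
      (e f : Fin r → Kˣ) (hef : ∀ i, PairRel hn hζ V H (e i) (f i))
      (α : BrauerGroup.{u, u} K)
      (hα : α ∈ V ⊔ Subgroup.closure (symSet hn hζ (H ⊔ Subgroup.closure (Set.range e ∪ Set.range f)))),
      ∃ x y : Fin r → Kˣ, ∃ v ∈ V, α = (∏ i, symCl hn hζ (x i) (y i)) * v := by
  induction r with
  | zero =>
    intro V H h1 hV e f hef α hα
    have h2 : Set.range e ∪ Set.range f = ∅ := by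
      rw [Set.range_eq_empty e, Set.range_eq_empty f, Set.union_empty]
    rw [h2, Subgroup.closure_empty, sup_bot_eq] at hα
    have h3 : V ⊔ Subgroup.closure (symSet hn hζ H) ≤ V := by
      refine sup_le le_rfl ?_
      rw [Subgroup.closure_le]
      exact hV
    exact ⟨e, f, α, h3 hα, by simp⟩
  | succ r ih =>
    intro V H h1 hV e f hef α hα
    obtain ⟨x, y, v', hv', hα'⟩ := ih (V ⊔ Subgroup.closure (symSet hn hζ (H ⊔ Subgroup.closure {e 0, f 0})))
      (H ⊔ Subgroup.closure {e 0, f 0}) (le_sup_left (a := H) h1)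
      (fun c hc => le_sup_right (a := V) (Subgroup.subset_closure hc))
      (fun i => e i.succ) (fun i => f i.succ) (fun i => (hef i.succ).mono le_sup_left le_sup_left) α (by
      refine sup_le_sup le_sup_left (Subgroup.closure_mono (symSet_mono hn hζ ?_)) hα
      rw [sup_assoc, ← Subgroup.closure_union]
      refine sup_le_sup le_rfl (Subgroup.closure_mono ?_)
      rintro x (⟨i, rfl⟩ | ⟨i, rfl⟩)
      · refine Fin.cases ?_ (fun j => ?_) i
        · exact Or.inl (Or.inl rfl)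
        · exact Or.inr (Or.inl ⟨j, rfl⟩)
      · refine Fin.cases ?_ (fun j => ?_) i
        · exact Or.inl (Or.inr rfl)
        · exact Or.inr (Or.inr ⟨j, rfl⟩))
    obtain ⟨x0, y0, v, hv, h0⟩ := step_len hn hζ V H h1 hV (e 0) (f 0) (hef 0) v' hv'
    refine ⟨Fin.cons x0 x, Fin.cons y0 y, v, hv, ?_⟩
    rw [Fin.prod_univ_succ]
    simp only [Fin.cons_zero, Fin.cons_succ]
    rw [hα', h0]
    rw [← mul_assoc, mul_comm (∏ i, symCl hn hζ (x i) (y i))]

end Pool.Agent.H552R3.SymBr
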