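import Mathlib
import Pool.Agent.H552R3.SymFinal

/-! A description of classes of symbol algebras by a predicate. -/

set_option autoImplicit false
set_option linter.all false

open scoped TensorProduct

noncomputable section

namespace Pool.Agent.H552R3.SymPred

open Pool.Agent.Helper18.Br Pool.Agent.H552R3.SymBr Pool.Agent.Helper346.Bra

universe u

/-- `c` is the class of a symbol algebra `(a, b)` of degree `n`: it is the class of a central simple
algebra of dimension `n ^ 2` which contains elements `x, y` with `x ^ n = a`, `y ^ n = b`, `y x = ζ x y`. -/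
def IsSym {K : Type u} [Field K] (n : ℕ) (ζ : K) (a b : Kˣ) (c : BrauerGroup.{u, u} K) : Prop :=
  ∃ (A : Type u) (_ : Ring A) (_ : Algebra K A) (_ : Algebra.IsCentral K A) (_ : IsSimpleRing A)
    (_ : FiniteDimensional K A), Module.finrank K A = n ^ 2 ∧ brauerClass K A = c ∧
      ∃ x y : A, x ^ n = algebraMap K A a ∧ y ^ n = algebraMap K A b ∧ y * x = ζ • (x * y)

theorem isSym_iff {K : Type u} [Field K] {n : ℕ} {ζ : K} (hn : 0 < n) (hζ : IsPrimitiveRoot ζ n) (a b : Kˣ)
    (c : BrauerGroup.{u, u} K) : IsSym n ζ a b c ↔ c = symCl hn hζ a b := by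
  have h := symb_csa n hn ζ (a : K) (b : K) hζ (n_ne_zero hn hζ) a.ne_zero b.ne_zero
  haveI : Algebra.IsCentral K (Symb K n ζ (a : K) (b : K)) := h.1
  haveI : IsSimpleRing (Symb K n ζ (a : K) (b : K)) := h.2.1
  haveI : FiniteDimensional K (Symb K n ζ (a : K) (b : K)) := h.2.2.1
  constructor
  · rintro ⟨A, _, _, _, _, _, hA, hc, x, y, hx, hy, hyx⟩
    rw [← hc]
    obtain ⟨e⟩ := equiv_of_hom (symLift x y hx hy (by rw [hyx, Algebra.smul_def])) (by rw [h.2.2.2, hA])
    exact (brauerClass_eq_iff.2 (BrEq.of_equiv e)).symm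
  · rintro rfl
    exact ⟨Symb K n ζ (a : K) (b : K), inferInstance, inferInstance, inferInstance, inferInstance, inferInstance,
      h.2.2.2, rfl, gx K n ζ a b, gy K n ζ a b, gx_pow, gy_pow, gyx (a : K) (b : K)⟩

end Pool.Agent.H552R3.SymPred
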